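import Mathlib

namespace Pool.Agent.Lib.MP_a95da8_nt

open Finset

/-- every ternary digit is `0` or `1` -/
def Q (x : ℕ) : Prop := ∀ i, x / 3 ^ i % 3 ≤ 1

open Classical in
/-- the numbers below `3 ^ r` with ternary digits `0`, `1` -/
noncomputable def C (r : ℕ) : Finset ℕ := (range (3 ^ r)).filter Q

lemma mem_C {r x : ℕ} : x ∈ C r ↔ x < 3 ^ r ∧ Q x := by
  classical
  simp [C]

lemma Q_div {x : ℕ} (h : Q x) (a : ℕ) : Q (x / 3 ^ a) := by
  intro i
  rw [Nat.div_div_eq_div_mul, ← pow_add]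
  exact h _

lemma Q_mod {x : ℕ} (h : Q x) (a : ℕ) : Q (x % 3 ^ a) := by
  intro i
  by_cases hi : i < a
  · obtain ⟨b, rfl⟩ := Nat.exists_eq_add_of_lt hi
    have h1 : 3 ^ (i + b + 1) = 3 ^ i * (3 * 3 ^ b) := by ring
    rw [h1, Nat.mod_mul_right_div_self, Nat.mod_mul_right_mod]
    exact h i
  · have h1 : x % 3 ^ a < 3 ^ i :=
      lt_of_lt_of_le (Nat.mod_lt _ (by positivity)) (Nat.pow_le_pow_right (by norm_num) (by omega))
    rw [Nat.div_eq_of_lt h1]
    norm_num

lemma card_C (r : ℕ) : (C r).card ≤ 2 ^ r := by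
  induction r with
  | zero =>
    have : C 0 ⊆ {0} := by
      intro x hx
      rw [mem_C] at hx
      simp only [pow_zero, Nat.lt_one_iff] at hx
      simp [hx.1]
    simpa using card_le_card this
  | succ r ih =>
    have h : (C (r + 1)).card ≤ ((range 2) ×ˢ C r).card := by
      apply card_le_card_of_injOn (fun x => (x % 3, x / 3))
      · intro x hx
        have hx' := mem_C.1 (mem_coe.1 hx)
        simp only [coe_product, coe_range, Set.mem_prod, Set.mem_Iio, mem_coe]
        refine ⟨?_, mem_C.2 ⟨?_, ?_⟩⟩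
        · have := hx'.2 0
          simp only [pow_zero, Nat.div_one] at this
          omega
        · have := hx'.1
          rw [pow_succ] at this
          omega
        · simpa using Q_div hx'.2 1
      · intro x _ y _ hxy
        simp only [Prod.mk.injEq] at hxy
        omega
    rw [card_product, card_range] at h
    rw [pow_succ]
    omega

lemma centralBinom_step {n : ℕ} (h : ¬ 3 ∣ n.centralBinom) :
    n % 3 ≤ 1 ∧ ¬ 3 ∣ (n / 3).centralBinom := by
  have : Fact (Nat.Prime 3) := ⟨Nat.prime_three⟩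
  have hL := Choose.choose_modEq_choose_mod_mul_choose_div_nat (n := 2 * n) (k := n) (p := 3)
  rw [Nat.centralBinom_eq_two_mul_choose] at h
  have h3 : n % 3 = 0 ∨ n % 3 = 1 ∨ n % 3 = 2 := by omega
  have key : ¬ 3 ∣ ((2 * n) % 3).choose (n % 3) * ((2 * n) / 3).choose (n / 3) := by
    intro hd
    exact h ((Nat.ModEq.dvd_iff hL (dvd_refl 3)).2 hd)
  rcases h3 with h3 | h3 | h3
  · refine ⟨by omega, fun hd => key ?_⟩
    have e : 2 * n / 3 = 2 * (n / 3) := by omega
    rw [e]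
    rw [Nat.centralBinom_eq_two_mul_choose] at hd
    exact Dvd.dvd.mul_left hd _
  · refine ⟨by omega, fun hd => key ?_⟩
    have e : 2 * n / 3 = 2 * (n / 3) := by omega
    rw [e]
    rw [Nat.centralBinom_eq_two_mul_choose] at hd
    exact Dvd.dvd.mul_left hd _
  · exfalso
    apply key
    have e : 2 * n % 3 = 1 := by omega
    rw [e, h3]
    simp

lemma Q_of_centralBinom {n : ℕ} (h : ¬ 3 ∣ n.centralBinom) : Q n := by
  have : ∀ i, ¬ 3 ∣ (n / 3 ^ i).centralBinom := by
    intro i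
    induction i with
    | zero => simpa using h
    | succ i ih =>
      have := (centralBinom_step ih).2
      rwa [Nat.div_div_eq_div_mul, ← pow_succ] at this
  intro i
  exact (centralBinom_step (this i)).1

lemma Q_of_catalan {k : ℕ} (h : ¬ 3 ∣ catalan (2 ^ k - 1)) : Q (2 ^ k - 1) := by
  apply Q_of_centralBinom
  rw [← succ_mul_catalan_eq_centralBinom]
  have h1 : 2 ^ k - 1 + 1 = 2 ^ k := Nat.sub_add_cancel (Nat.one_le_two_pow)
  rw [h1]
  intro hd
  rcases (Nat.Prime.dvd_mul Nat.prime_three).1 hd with h2 | h2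
  · have := Nat.Prime.dvd_of_dvd_pow Nat.prime_three h2
    omega
  · exact h h2

lemma four_pow (t : ℕ) : ∃ κ : ℕ, 4 ^ 3 ^ t = 1 + 3 ^ (t + 1) * κ ∧ κ % 3 = 1 := by
  induction t with
  | zero => exact ⟨1, by norm_num, rfl⟩
  | succ t ih =>
    obtain ⟨κ, h1, h2⟩ := ih
    refine ⟨κ + 3 * (3 ^ t * κ ^ 2 + 3 ^ (2 * t) * κ ^ 3), ?_, by omega⟩
    rw [pow_succ 3 t, pow_mul, h1]
    ring

lemma one_add_pow (q κ m : ℕ) : ∃ c : ℕ, (1 + q * κ) ^ m = 1 + q * κ * m + q ^ 2 * c := by
  induction m with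
  | zero => exact ⟨0, by simp⟩
  | succ m ih =>
    obtain ⟨c, hc⟩ := ih
    refine ⟨c + κ ^ 2 * m + q * κ * c, ?_⟩
    rw [pow_succ, hc]
    ring

lemma four_inj {t a b : ℕ} (ha : a < 3 ^ t) (hb : b < 3 ^ t)
    (h : (4 : ZMod (3 ^ (t + 1))) ^ a = 4 ^ b) : a = b := by
  have ho := ZMod.orderOf_one_add_prime Nat.prime_three (by norm_num) t
  have e : (1 + (3 : ℕ) : ZMod (3 ^ (t + 1))) = 4 := by norm_num
  rw [e] at ho
  exact pow_injOn_Iio_orderOf (by simpa [ho] using ha) (by simpa [ho] using hb) h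

end Pool.Agent.Lib.MP_a95da8_nt
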