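import Pool.Agent.Lib.MP_a95da8_nt.Main

namespace Pool.Agent.Lib.MP_a95da8_nt

open Finset

lemma rho_bound {x : ℝ} (h : x ^ 1000 ≤ 3 ^ 27554) :
    x ≤ ((3 : ℝ) ^ 46) ^ (0.599 : ℝ) := by
  have h1 : (((3 : ℝ) ^ 46) ^ (0.599 : ℝ)) ^ 1000 = 3 ^ 27554 := by
    rw [← Real.rpow_natCast, ← Real.rpow_mul (by positivity)]
    have e : (0.599 : ℝ) * ((1000 : ℕ) : ℝ) = ((599 : ℕ) : ℝ) := by norm_num
    rw [e, Real.rpow_natCast, ← pow_mul]
  rw [← h1] at h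
  exact le_of_pow_le_pow_left₀ (by norm_num) (by positivity) h

lemma nat1 : (4 ^ 25) ^ 1000 ≤ 3 ^ 27554 * (3 ^ 4) ^ 1000 := by decide +kernel

lemma nat2 : (2 ^ 4 * 3 ^ 25) ^ 1000 ≤ 3 ^ 27554 := by decide +kernel

lemma rho1 : (4 : ℝ) ^ 25 / 3 ^ 4 ≤ ((3 : ℝ) ^ 46) ^ (0.599 : ℝ) := by
  apply rho_bound
  rw [div_pow, div_le_iff₀ (by positivity)]
  have := (Nat.cast_le (α := ℝ)).2 nat1
  simpa only [Nat.cast_pow, Nat.cast_mul, Nat.cast_ofNat] using this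

lemma rho2 : (2 : ℝ) ^ 4 * 3 ^ 25 ≤ ((3 : ℝ) ^ 46) ^ (0.599 : ℝ) := by
  apply rho_bound
  have := (Nat.cast_le (α := ℝ)).2 nat2
  simpa only [Nat.cast_pow, Nat.cast_mul, Nat.cast_ofNat] using this

open Classical in
lemma count_all (l X : ℕ) (hl : l = 1 ∨ l = 2) :
    (((range X).filter (fun n : ℕ => Q (l * 4 ^ n - 1))).card : ℝ)
      ≤ 57 * ((3 : ℝ) ^ 46) ^ (0.599 : ℝ) * (X : ℝ) ^ (0.599 : ℝ) := by
  rcases Nat.eq_zero_or_pos X with rfl | hX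
  · simp only [range_zero, filter_empty, card_empty, Nat.cast_zero]
    positivity
  set b : ℕ := 3 ^ 46 with hb
  set ρ : ℝ := ((3 : ℝ) ^ 46) ^ (0.599 : ℝ) with hρ
  set k := Nat.log b X with hk
  have hb1 : 1 < b := by rw [hb]; norm_num
  have h1 : X < b ^ (k + 1) := Nat.lt_pow_succ_log_self hb1 X
  have h2 : b ^ k ≤ X := Nat.pow_log_le_self b hX.ne'
  have h3 := count_scale l (25 * (k + 1) + 1) (4 * (k + 1)) (21 * (k + 1)) hl (by ring)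
  have h4 : range X ⊆ range (3 ^ (25 * (k + 1) + 1) * 3 ^ (21 * (k + 1))) := by
    apply range_subset_range.2
    refine h1.le.trans ?_
    rw [hb, ← pow_mul, ← pow_add]
    exact Nat.pow_le_pow_right (by norm_num) (by omega)
  have h5 : (((range X).filter (fun n : ℕ => Q (l * 4 ^ n - 1))).card : ℝ) ≤
      (((range (3 ^ (25 * (k + 1) + 1) * 3 ^ (21 * (k + 1)))).filter
        (fun n : ℕ => Q (l * 4 ^ n - 1))).card : ℝ) := by
    exact_mod_cast card_le_card (filter_subset_filter _ h4)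
  have e1 : (3 : ℝ) * 4 ^ (25 * (k + 1) + 1 + 1) / 3 ^ (4 * (k + 1))
      = 48 * (4 ^ 25 / 3 ^ 4) ^ (k + 1) := by
    rw [div_pow, ← pow_mul, ← pow_mul, pow_succ, pow_succ]
    ring
  have e2 : (2 : ℝ) ^ (4 * (k + 1)) * 3 ^ (25 * (k + 1) + 1 + 1)
      = 9 * (2 ^ 4 * 3 ^ 25) ^ (k + 1) := by
    rw [mul_pow, ← pow_mul, ← pow_mul, pow_succ, pow_succ]
    ring
  rw [e1, e2] at h3
  have g1 : ((4 : ℝ) ^ 25 / 3 ^ 4) ^ (k + 1) ≤ ρ ^ (k + 1) :=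
    pow_le_pow_left₀ (by positivity) rho1 _
  have g2 : ((2 : ℝ) ^ 4 * 3 ^ 25) ^ (k + 1) ≤ ρ ^ (k + 1) :=
    pow_le_pow_left₀ (by positivity) rho2 _
  have g3 : ρ ^ k ≤ (X : ℝ) ^ (0.599 : ℝ) := by
    rw [hρ, ← Real.rpow_natCast, ← Real.rpow_mul (by positivity), mul_comm,
      Real.rpow_mul (by positivity), Real.rpow_natCast]
    apply Real.rpow_le_rpow (by positivity) _ (by norm_num)
    have := (Nat.cast_le (α := ℝ)).2 h2
    simpa only [hb, Nat.cast_pow, Nat.cast_ofNat] using this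
  have hρ0 : 0 ≤ ρ := by positivity
  have g4 : ρ ^ (k + 1) ≤ ρ * (X : ℝ) ^ (0.599 : ℝ) := by
    rw [pow_succ, mul_comm]
    exact mul_le_mul_of_nonneg_left g3 hρ0
  refine h5.trans (h3.trans ?_)
  generalize ((4 : ℝ) ^ 25 / 3 ^ 4) ^ (k + 1) = A at g1 ⊢
  generalize ((2 : ℝ) ^ 4 * 3 ^ 25) ^ (k + 1) = B at g2 ⊢
  generalize ρ ^ (k + 1) = D at g1 g2 g4
  rw [mul_assoc]
  generalize ρ * (X : ℝ) ^ (0.599 : ℝ) = E at g4 ⊢
  linarith

theorem main : ∃ c : ℝ, ∀ X : ℕ,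
    (((range X).filter (fun k : ℕ => catalan (2 ^ k - 1) % 3 ≠ 0)).card : ℝ)
      ≤ c * (X : ℝ) ^ (0.599 : ℝ) := by
  classical
  refine ⟨114 * ((3 : ℝ) ^ 46) ^ (0.599 : ℝ), fun X => ?_⟩
  have hsub : (range X).filter (fun k : ℕ => catalan (2 ^ k - 1) % 3 ≠ 0) ⊆
      ((range X).filter (fun n : ℕ => Q (1 * 4 ^ n - 1))).image (fun n => 2 * n) ∪
      ((range X).filter (fun n : ℕ => Q (2 * 4 ^ n - 1))).image (fun n => 2 * n + 1) := by
    intro k hk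
    obtain ⟨hk1, hk2⟩ := mem_filter.1 hk
    have hk1' := mem_range.1 hk1
    have hQ := Q_of_catalan (k := k) (fun h => hk2 (Nat.mod_eq_zero_of_dvd h))
    rcases Nat.even_or_odd' k with ⟨n, rfl | rfl⟩
    · apply mem_union_left
      refine mem_image.2 ⟨n, mem_filter.2 ⟨mem_range.2 (by omega), ?_⟩, rfl⟩
      have e : 2 ^ (2 * n) = 1 * 4 ^ n := by rw [pow_mul]; norm_num
      rwa [e] at hQ
    · apply mem_union_right
      refine mem_image.2 ⟨n, mem_filter.2 ⟨mem_range.2 (by omega), ?_⟩, rfl⟩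
      have e : 2 ^ (2 * n + 1) = 2 * 4 ^ n := by rw [pow_succ, pow_mul]; norm_num [mul_comm]
      rwa [e] at hQ
  have h1 := (card_le_card hsub).trans ((card_union_le _ _).trans
    (add_le_add card_image_le card_image_le))
  have h2 := (Nat.cast_le (α := ℝ)).2 h1
  rw [Nat.cast_add] at h2
  have h3 := count_all 1 X (Or.inl rfl)
  have h4 := count_all 2 X (Or.inr rfl)
  refine h2.trans ((add_le_add h3 h4).trans (le_of_eq ?_))
  generalize ((3 : ℝ) ^ 46) ^ (0.599 : ℝ) = A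
  ring

end Pool.Agent.Lib.MP_a95da8_nt
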