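import Mathlib

namespace Pool.Agent.Lib.MP_a95da8_nt

open Finset Complex

variable {q : ℕ} [NeZero q]

/-- the exponential sum of a set of residues -/
noncomputable def F (V : Finset (ZMod q)) (ξ : ZMod q) : ℂ :=
  ∑ v ∈ V, ZMod.stdAddChar (ξ * v)

lemma conj_char (x : ZMod q) :
    (starRingEnd ℂ) (ZMod.stdAddChar x) = ZMod.stdAddChar (-x) := by
  rw [AddChar.map_neg_eq_conj]

lemma norm_char (x : ZMod q) : ‖(ZMod.stdAddChar x : ℂ)‖ = 1 := by
  rw [ZMod.stdAddChar_apply]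
  exact Circle.norm_coe _

lemma normSq_sum {ι : Type*} (S : Finset ι) (f : ι → ZMod q) :
    ((‖∑ i ∈ S, (ZMod.stdAddChar (f i) : ℂ)‖ ^ 2 : ℝ) : ℂ)
      = ∑ i ∈ S, ∑ j ∈ S, ZMod.stdAddChar (f i - f j) := by
  rw [← Complex.normSq_eq_norm_sq, ← Complex.mul_conj, map_sum, sum_mul_sum]
  refine sum_congr rfl fun i _ => sum_congr rfl fun j _ => ?_
  rw [conj_char, ← AddChar.map_add_eq_mul, sub_eq_add_neg]

lemma parseval (V : Finset (ZMod q)) : ∑ ξ : ZMod q, ‖F V ξ‖ ^ 2 = q * V.card := by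
  have h : ((∑ ξ : ZMod q, ‖F V ξ‖ ^ 2 : ℝ) : ℂ) = ((q * V.card : ℝ) : ℂ) := by
    push_cast
    have h1 : ∀ ξ : ZMod q, ((‖F V ξ‖ : ℂ) ^ 2)
        = ∑ i ∈ V, ∑ j ∈ V, ZMod.stdAddChar (ξ * (i - j)) := by
      intro ξ
      have := normSq_sum V (fun v => ξ * v)
      push_cast at this
      rw [F, this]
      simp only [mul_sub]
    simp only [h1]
    rw [sum_comm]
    have h2 : ∀ i ∈ V, ∑ ξ : ZMod q, ∑ j ∈ V, (ZMod.stdAddChar (ξ * (i - j)) : ℂ) = q := by
      intro i hi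
      rw [sum_comm]
      have h3 : ∀ j ∈ V, ∑ ξ : ZMod q, (ZMod.stdAddChar (ξ * (i - j)) : ℂ)
          = if i = j then (q : ℂ) else 0 := by
        intro j _
        rw [AddChar.sum_mulShift _ (ZMod.isPrimitive_stdAddChar q)]
        simp [sub_eq_zero]
      rw [sum_congr rfl h3]
      simp [hi]
    rw [sum_congr rfl h2]
    simp [mul_comm]
  exact_mod_cast h

lemma norm_F_le (V : Finset (ZMod q)) (ξ : ZMod q) : ‖F V ξ‖ ≤ V.card := by
  unfold F
  refine (norm_sum_le _ _).trans ?_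
  simp

lemma fejer_lower (A m : ℕ) (h : 9 * A * m ≤ q) :
    (A : ℝ) ^ 2 / 2 ≤ ‖∑ a ∈ range A, (ZMod.stdAddChar ((a : ZMod q) * (m : ZMod q)) : ℂ)‖ ^ 2 := by
  have hq : (0 : ℝ) < q := by exact_mod_cast Nat.pos_of_ne_zero (NeZero.ne q)
  have h1 : ∀ a ∈ range A, (3 / 4 : ℝ) ≤
      (ZMod.stdAddChar ((a : ZMod q) * (m : ZMod q)) : ℂ).re := by
    intro a ha
    have e : ((a : ZMod q) * (m : ZMod q)) = (((a * m : ℕ) : ℤ) : ZMod q) := by push_cast; rfl
    rw [e, ZMod.stdAddChar_coe]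
    have e2 : (2 * Real.pi * I * (((a * m : ℕ) : ℤ) : ℂ) / q : ℂ)
        = ((2 * Real.pi * (a * m) / q : ℝ) : ℂ) * I := by push_cast; ring
    rw [e2, exp_ofReal_mul_I_re]
    have hc := Real.one_sub_sq_div_two_le_cos (x := 2 * Real.pi * (a * m) / q)
    have ha' : (a : ℝ) ≤ A := by exact_mod_cast (mem_range.1 ha).le
    have hh : (9 : ℝ) * A * m ≤ q := by exact_mod_cast h
    have hm : (0 : ℝ) ≤ m := by positivity
    have h0 : 0 ≤ 2 * Real.pi * (a * m) / q := by positivity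
    have h2 : 2 * Real.pi * (a * m) / q ≤ 7 / 10 := by
      rw [div_le_iff₀ hq]
      have hp := Real.pi_lt_d2
      have h3 : (a : ℝ) * m ≤ q / 9 := by nlinarith
      have h4 : (0 : ℝ) ≤ a * m := by positivity
      nlinarith
    nlinarith
  have h2 : (3 / 4 : ℝ) * A ≤
      ‖∑ a ∈ range A, (ZMod.stdAddChar ((a : ZMod q) * (m : ZMod q)) : ℂ)‖ := by
    refine le_trans ?_ (re_le_norm _)
    rw [re_sum]
    calc (3 / 4 : ℝ) * A = ∑ a ∈ range A, (3 / 4 : ℝ) := by simp [mul_comm]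
      _ ≤ _ := sum_le_sum h1
  have h3 : (0 : ℝ) ≤ (3 / 4 : ℝ) * A := by positivity
  nlinarith [mul_self_le_mul_self h3 h2]

lemma fejer_upper (V : Finset (ZMod q)) (y w : ZMod q) (A : ℕ) :
    ∑ v ∈ V, ‖∑ a ∈ range A, (ZMod.stdAddChar ((a : ZMod q) * (y * (v - w))) : ℂ)‖ ^ 2
      ≤ ∑ a ∈ range A, ∑ b ∈ range A, ‖F V (((a : ZMod q) - b) * y)‖ := by
  have h : ((∑ v ∈ V, ‖∑ a ∈ range A,
      (ZMod.stdAddChar ((a : ZMod q) * (y * (v - w))) : ℂ)‖ ^ 2 : ℝ) : ℂ)
      = ∑ a ∈ range A, ∑ b ∈ range A,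
        ZMod.stdAddChar (-(((a : ZMod q) - (b : ZMod q)) * y * w)) *
          F V (((a : ZMod q) - (b : ZMod q)) * y) := by
    rw [ofReal_sum]
    simp only [normSq_sum]
    rw [sum_comm]
    refine sum_congr rfl fun a _ => ?_
    rw [sum_comm]
    refine sum_congr rfl fun b _ => ?_
    rw [F, mul_sum]
    refine sum_congr rfl fun v _ => ?_
    rw [← AddChar.map_add_eq_mul]
    congr 1
    ring
  have h2 := congrArg norm h
  rw [norm_real, Real.norm_of_nonneg (by positivity)] at h2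
  rw [h2]
  refine (norm_sum_le _ _).trans (sum_le_sum fun a _ => (norm_sum_le _ _).trans
    (sum_le_sum fun b _ => ?_))
  rw [norm_mul, norm_char, one_mul]

/-- points of an arithmetic progression in `V` -/
lemma ap_count (V : Finset (ZMod q)) (x y w : ZMod q) (hxy : y * x = 1) (A M : ℕ) (hA : 0 < A)
    (h : 9 * A * M ≤ q) :
    (((range M).filter (fun m : ℕ => w + x * m ∈ V)).card : ℝ) * ((A : ℝ) ^ 2 / 2)
      ≤ ∑ a ∈ range A, ∑ b ∈ range A, ‖F V (((a : ZMod q) - b) * y)‖ := by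
  refine le_trans ?_ (fejer_upper V y w A)
  set S := (range M).filter (fun m : ℕ => w + x * m ∈ V) with hS
  have hinj : Set.InjOn (fun m : ℕ => w + x * m) S := by
    intro m hm n hn hmn
    have hm' := mem_range.1 (mem_filter.1 (mem_coe.1 hm)).1
    have hn' := mem_range.1 (mem_filter.1 (mem_coe.1 hn)).1
    have e : (m : ZMod q) = n := by
      have h1 : x * m = x * n := add_left_cancel hmn
      calc (m : ZMod q) = y * (x * m) := by rw [← mul_assoc, hxy, one_mul]
        _ = y * (x * n) := by rw [h1]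
        _ = n := by rw [← mul_assoc, hxy, one_mul]
    have hMq : M ≤ q := by nlinarith
    rw [ZMod.natCast_eq_natCast_iff', Nat.mod_eq_of_lt (by omega),
      Nat.mod_eq_of_lt (by omega)] at e
    exact e
  calc (S.card : ℝ) * ((A : ℝ) ^ 2 / 2) = ∑ m ∈ S, (A : ℝ) ^ 2 / 2 := by simp
    _ ≤ ∑ m ∈ S, ‖∑ a ∈ range A,
          (ZMod.stdAddChar ((a : ZMod q) * (y * ((w + x * (m : ZMod q)) - w))) : ℂ)‖ ^ 2 := by
        refine sum_le_sum fun m hm => ?_
        have hm' := mem_range.1 (mem_filter.1 hm).1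
        have e : y * ((w + x * (m : ZMod q)) - w) = m := by
          rw [add_sub_cancel_left, ← mul_assoc, hxy, one_mul]
        rw [e]
        exact fejer_lower A m (le_trans (Nat.mul_le_mul_left _ hm'.le) h)
    _ = ∑ v ∈ S.image (fun m : ℕ => w + x * m), ‖∑ a ∈ range A,
          (ZMod.stdAddChar ((a : ZMod q) * (y * (v - w))) : ℂ)‖ ^ 2 := by
        rw [sum_image hinj]
    _ ≤ _ := by
        refine sum_le_sum_of_subset_of_nonneg ?_ (fun _ _ _ => by positivity)
        intro v hv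
        obtain ⟨m, hm, rfl⟩ := mem_image.1 hv
        exact (mem_filter.1 hm).2

/-- the bilinear bound, given a multiplicity bound `K` -/
lemma bilinear {τ : Type*} (T : Finset τ) (V : Finset (ZMod q)) (y : τ → ZMod q) (A K : ℕ)
    (R : ℝ) (hR : 0 < R)
    (hK : ∀ b ∈ range A, ∀ ξ : ZMod q,
      (((T ×ˢ range A).filter
        (fun p : τ × ℕ => p.2 ≠ b ∧ ((p.2 : ZMod q) - b) * y p.1 = ξ)).card) ≤ K) :
    ∑ t ∈ T, ∑ a ∈ range A, ∑ b ∈ range A, ‖F V (((a : ZMod q) - b) * y t)‖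
      ≤ T.card * A * V.card + (T.card * A ^ 2 * R + A * K * (q * V.card) / R) / 2 := by
  classical
  have h1 : ∀ b ∈ range A, ∑ t ∈ T, ∑ a ∈ range A, ‖F V (((a : ZMod q) - b) * y t)‖
      ≤ T.card * V.card + (T.card * A * R + K * (q * V.card) / R) / 2 := by
    intro b hb
    rw [← sum_product' (f := fun t (a : ℕ) => ‖F V (((a : ZMod q) - b) * y t)‖),
      ← sum_filter_add_sum_filter_not (T ×ˢ range A) (fun p : τ × ℕ => p.2 = b)]
    refine add_le_add ?_ ?_
    · have hc : ((T ×ˢ range A).filter (fun p : τ × ℕ => p.2 = b)).card ≤ T.card := by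
        apply card_le_card_of_injOn (fun p => p.1)
        · intro p hp
          exact (mem_product.1 (mem_filter.1 (mem_coe.1 hp)).1).1
        · intro p hp p' hp' h
          exact Prod.ext h ((mem_filter.1 (mem_coe.1 hp)).2.trans
            (mem_filter.1 (mem_coe.1 hp')).2.symm)
      calc _ ≤ ∑ p ∈ (T ×ˢ range A).filter (fun p : τ × ℕ => p.2 = b), (V.card : ℝ) :=
            sum_le_sum fun p _ => norm_F_le _ _
        _ ≤ _ := by
            rw [sum_const, nsmul_eq_mul]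
            gcongr
    · set P := (T ×ˢ range A).filter (fun p : τ × ℕ => ¬ p.2 = b) with hP
      have hc : (P.card : ℝ) ≤ T.card * A := by
        have : P.card ≤ T.card * A := by
          simpa using card_filter_le (T ×ˢ range A) (fun p : τ × ℕ => ¬ p.2 = b)
        exact_mod_cast this
      have hsq : ∑ p ∈ P, ‖F V (((p.2 : ZMod q) - b) * y p.1)‖ ^ 2 ≤ K * (q * V.card) := by
        rw [← parseval, mul_sum,
          ← sum_fiberwise_of_maps_to (s := P) (t := univ)
            (g := fun p : τ × ℕ => ((p.2 : ZMod q) - b) * y p.1) (fun _ _ => mem_univ _)]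
        refine sum_le_sum fun ξ _ => ?_
        have e : ∀ p ∈ P.filter (fun p : τ × ℕ => ((p.2 : ZMod q) - b) * y p.1 = ξ),
            ‖F V (((p.2 : ZMod q) - b) * y p.1)‖ ^ 2 = ‖F V ξ‖ ^ 2 := by
          intro p hp
          rw [(mem_filter.1 hp).2]
        rw [sum_congr rfl e, sum_const, nsmul_eq_mul, hP, filter_filter]
        have := hK b hb ξ
        gcongr
      calc _ ≤ ∑ p ∈ P, (R + ‖F V (((p.2 : ZMod q) - b) * y p.1)‖ ^ 2 / R) / 2 := by
            refine sum_le_sum fun p _ => ?_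
            set z := ‖F V (((p.2 : ZMod q) - b) * y p.1)‖
            have : z ^ 2 / R * R = z ^ 2 := by field_simp
            nlinarith [sq_nonneg (z - R)]
        _ = (P.card * R + (∑ p ∈ P, ‖F V (((p.2 : ZMod q) - b) * y p.1)‖ ^ 2) / R) / 2 := by
            rw [← sum_div, sum_add_distrib, sum_const, nsmul_eq_mul, sum_div]
        _ ≤ _ := by gcongr
  calc _ = ∑ b ∈ range A, ∑ t ∈ T, ∑ a ∈ range A, ‖F V (((a : ZMod q) - b) * y t)‖ := by
        rw [sum_comm (s := range A) (t := T)]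
        refine sum_congr rfl fun t _ => sum_comm
    _ ≤ ∑ b ∈ range A, (T.card * V.card + (T.card * A * R + K * (q * V.card) / R) / 2 : ℝ) :=
        sum_le_sum h1
    _ = _ := by
        rw [sum_const, card_range, nsmul_eq_mul]
        ring

end Pool.Agent.Lib.MP_a95da8_nt
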