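import Pool.Agent.Lib.MP_a95da8_nt.Digits
import Pool.Agent.Lib.MP_a95da8_nt.Fourier

namespace Pool.Agent.Lib.MP_a95da8_nt

open Finset

instance neZero_three_pow (s : ℕ) : NeZero (3 ^ s) := ⟨by positivity⟩

lemma eq_of_dvd_sub {a b n : ℕ} (ha : a < n) (hb : b < n) (h : (n : ℤ) ∣ (a : ℤ) - b) : a = b := by
  have h1 : b ≡ a [MOD n] := (Nat.modEq_iff_dvd).2 h
  exact (Nat.ModEq.eq_of_lt_of_lt h1 hb ha).symm

lemma mult {τ : Type*} (s j κ : ℕ) (hjs : j ≤ s) (hκ : ¬ 3 ∣ κ) (T : Finset τ) (u : τ → ℕ)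
    (hu : ∀ t ∈ T, u t ∈ C s) (hinj : Set.InjOn u T) (y : τ → ZMod (3 ^ s))
    (hy : ∀ t ∈ T, y t * ((κ : ZMod (3 ^ s)) * ((u t : ZMod (3 ^ s)) + 1)) = 1)
    (b : ℕ) (hb : b ∈ range (3 ^ j)) (ξ : ZMod (3 ^ s)) :
    (((T ×ˢ range (3 ^ j)).filter (fun p : τ × ℕ => p.2 ≠ b ∧
      ((p.2 : ZMod (3 ^ s)) - (b : ZMod (3 ^ s))) * y p.1 = ξ)).card) ≤ 2 ^ j := by
  classical
  set P := (T ×ˢ range (3 ^ j)).filter (fun p : τ × ℕ => p.2 ≠ b ∧
      ((p.2 : ZMod (3 ^ s)) - (b : ZMod (3 ^ s))) * y p.1 = ξ) with hP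
  have hb' := mem_range.1 hb
  have hdiv : ∀ p ∈ P, ((3 : ℤ) ^ s) ∣ (ξ.val : ℤ) * κ * (u p.1 + 1) - (p.2 - b) := by
    intro p hp
    obtain ⟨h1, _, h3⟩ := mem_filter.1 hp
    have h4 := hy p.1 (mem_product.1 h1).1
    have h5 : (((ξ.val : ℤ) * κ * (u p.1 + 1) - (p.2 - b) : ℤ) : ZMod (3 ^ s)) = 0 := by
      push_cast
      rw [ZMod.natCast_zmod_val, ← h3]
      linear_combination ((p.2 : ZMod (3 ^ s)) - (b : ZMod (3 ^ s))) * h4
    have := (ZMod.intCast_zmod_eq_zero_iff_dvd _ _).1 h5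
    exact_mod_cast this
  rcases P.eq_empty_or_nonempty with h0 | ⟨p0, hp0⟩
  · rw [h0]; simp
  have hp0' := mem_filter.1 hp0
  have hp0a := mem_range.1 (mem_product.1 hp0'.1).2
  have hjd : ((3 : ℤ) ^ j) ∣ (3 : ℤ) ^ s := pow_dvd_pow _ hjs
  have hnot : ¬ ((3 : ℤ) ^ j) ∣ (ξ.val : ℤ) := by
    intro hd
    apply hp0'.2.1
    apply eq_of_dvd_sub hp0a hb'
    have h1 := hjd.trans (hdiv p0 hp0)
    have h2 : ((3 : ℤ) ^ j) ∣ (ξ.val : ℤ) * κ * (u p0.1 + 1) :=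
      Dvd.dvd.mul_right (Dvd.dvd.mul_right hd _) _
    have h3 := dvd_sub h2 h1
    push_cast
    simpa using h3
  have hξ0 : ξ.val ≠ 0 := by
    intro h
    apply hnot
    simp [h]
  obtain ⟨μ, ξ', hξ', hξe⟩ := Nat.exists_eq_pow_mul_and_not_dvd hξ0 3 (by norm_num)
  have hμ : μ ≤ j := by
    by_contra hc
    apply hnot
    rw [hξe]
    push_cast
    exact Dvd.dvd.mul_right (pow_dvd_pow _ (by omega)) _
  have hcard : P.card ≤ (C (j - μ) ×ˢ C μ).card := by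
    apply card_le_card_of_injOn (fun p => (u p.1 % 3 ^ (j - μ), u p.1 / 3 ^ (s - μ)))
    · intro p hp
      have h1 := mem_C.1 (hu p.1 (mem_product.1 (mem_filter.1 (mem_coe.1 hp)).1).1)
      simp only [coe_product, Set.mem_prod, mem_coe]
      refine ⟨mem_C.2 ⟨Nat.mod_lt _ (by positivity), Q_mod h1.2 _⟩,
        mem_C.2 ⟨?_, Q_div h1.2 _⟩⟩
      rw [Nat.div_lt_iff_lt_mul (by positivity), ← pow_add]
      have : μ + (s - μ) = s := by omega
      rw [this]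
      exact h1.1
    · intro p hp p' hp' h
      simp only [Prod.mk.injEq] at h
      obtain ⟨h1, h2⟩ := h
      have hp1 := mem_product.1 (mem_filter.1 (mem_coe.1 hp)).1
      have hp1' := mem_product.1 (mem_filter.1 (mem_coe.1 hp')).1
      have d1 := hdiv p (mem_coe.1 hp)
      have d2 := hdiv p' (mem_coe.1 hp')
      have d3 : ((3 : ℤ) ^ s) ∣ (3 : ℤ) ^ μ * (ξ' * κ * ((u p.1 : ℤ) - u p'.1))
          - ((p.2 : ℤ) - p'.2) := by
        have h7 := dvd_sub d1 d2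
        have e : (3 : ℤ) ^ μ * (ξ' * κ * ((u p.1 : ℤ) - u p'.1)) - ((p.2 : ℤ) - p'.2)
            = (ξ.val : ℤ) * κ * (u p.1 + 1) - (p.2 - b)
              - ((ξ.val : ℤ) * κ * (u p'.1 + 1) - (p'.2 - b)) := by
          rw [hξe]
          push_cast
          ring
        rw [e]
        exact h7
      have d4 : ((3 : ℤ) ^ (j - μ)) ∣ (u p.1 : ℤ) - u p'.1 := by
        have : u p'.1 ≡ u p.1 [MOD 3 ^ (j - μ)] := h1.symm
        have := (Nat.modEq_iff_dvd).1 this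
        exact_mod_cast this
      have d5 : ((3 : ℤ) ^ j) ∣ (3 : ℤ) ^ μ * (ξ' * κ * ((u p.1 : ℤ) - u p'.1)) := by
        have e : (3 : ℤ) ^ j = 3 ^ μ * 3 ^ (j - μ) := by
          rw [← pow_add]; congr 1; omega
        rw [e]
        exact mul_dvd_mul_left _ (Dvd.dvd.mul_left d4 _)
      have e2 : p.2 = p'.2 := by
        apply eq_of_dvd_sub (mem_range.1 hp1.2) (mem_range.1 hp1'.2)
        have := dvd_sub d5 (hjd.trans d3)
        push_cast
        simpa using this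
      have d6 : ((3 : ℤ) ^ (s - μ)) ∣ (u p.1 : ℤ) - u p'.1 := by
        rw [e2, sub_self, sub_zero] at d3
        have e : (3 : ℤ) ^ s = 3 ^ μ * 3 ^ (s - μ) := by
          rw [← pow_add]; congr 1; omega
        rw [e] at d3
        have d7 := (mul_dvd_mul_iff_left (by positivity)).1 d3
        have hc : IsCoprime ((3 : ℤ) ^ (s - μ)) ((ξ' : ℤ) * κ) := by
          apply IsCoprime.pow_left
          have h3 : Nat.Coprime 3 (ξ' * κ) := by
            rw [Nat.Prime.coprime_iff_not_dvd Nat.prime_three]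
            intro hd
            rcases (Nat.Prime.dvd_mul Nat.prime_three).1 hd with h | h
            · exact hξ' h
            · exact hκ h
          have := Nat.isCoprime_iff_coprime.2 h3
          exact_mod_cast this
        exact hc.dvd_of_dvd_mul_left d7
      have e3 : u p.1 = u p'.1 := by
        have h3 : u p'.1 ≡ u p.1 [MOD 3 ^ (s - μ)] := by
          apply (Nat.modEq_iff_dvd).2
          exact_mod_cast d6
        rw [← Nat.div_add_mod (u p.1) (3 ^ (s - μ)), ← Nat.div_add_mod (u p'.1) (3 ^ (s - μ)),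
          h2, h3]
      exact Prod.ext (hinj (mem_coe.2 hp1.1) (mem_coe.2 hp1'.1) e3) e2
  rw [card_product] at hcard
  calc P.card ≤ (C (j - μ)).card * (C μ).card := hcard
    _ ≤ 2 ^ (j - μ) * 2 ^ μ := Nat.mul_le_mul (card_C _) (card_C _)
    _ = 2 ^ j := by rw [← pow_add]; congr 1; omega

open Classical in
/-- the count at scale `3 ^ (2 s - j - 3)` -/
lemma count_scale (l t j i : ℕ) (hl : l = 1 ∨ l = 2) (hi : j + 2 + i = t + 1) :
    (((range (3 ^ t * 3 ^ i)).filter (fun n : ℕ => Q (l * 4 ^ n - 1))).card : ℝ)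
      ≤ 3 * 4 ^ (t + 1) / 3 ^ j + 2 ^ j * 3 ^ (t + 1) := by
  obtain ⟨κ, hκ1, hκ2⟩ := four_pow t
  set s := t + 1 with hs
  set V : Finset (ZMod (3 ^ s)) := (C s).image (fun v : ℕ => (v : ZMod (3 ^ s))) with hV
  have hVc : (V.card : ℝ) ≤ 2 ^ s := by
    have : V.card ≤ 2 ^ s := card_image_le.trans (card_C s)
    exact_mod_cast this
  have hpos : ∀ n : ℕ, 1 ≤ l * 4 ^ n := by
    intro n
    have : 0 < 4 ^ n := by positivity
    rcases hl with rfl | rfl <;> omega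
  set u : ℕ → ℕ := fun n => (l * 4 ^ n - 1) % 3 ^ s with hu
  set T := (range (3 ^ t)).filter (fun n : ℕ => u n ∈ C s) with hT
  have hu1 : ∀ n, ((u n : ℕ) : ZMod (3 ^ s)) + 1 = l * 4 ^ n := by
    intro n
    simp only [hu]
    rw [ZMod.natCast_mod, Nat.cast_sub (hpos n)]
    push_cast
    ring
  have hunit : ∀ m : ℕ, ¬ 3 ∣ m → IsUnit (m : ZMod (3 ^ s)) := by
    intro m hm
    rw [ZMod.isUnit_iff_coprime]
    apply Nat.Coprime.pow_right
    exact ((Nat.Prime.coprime_iff_not_dvd Nat.prime_three).2 hm).symm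
  have hl3 : ¬ 3 ∣ l := by rcases hl with rfl | rfl <;> norm_num
  have hκ3 : ¬ 3 ∣ κ := by omega
  have hinj : Set.InjOn u T := by
    intro a ha b hb hab
    have ha' := mem_range.1 (mem_filter.1 (mem_coe.1 ha)).1
    have hb' := mem_range.1 (mem_filter.1 (mem_coe.1 hb)).1
    apply four_inj ha' hb'
    have h1 := hu1 a
    rw [hab, hu1 b] at h1
    exact ((hunit l hl3).mul_left_cancel h1).symm
  have hTc : (T.card : ℝ) ≤ 2 ^ s := by
    have : T.card ≤ (C s).card := by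
      apply card_le_card_of_injOn u _ hinj
      intro a ha
      exact (mem_filter.1 (mem_coe.1 ha)).2
    have := this.trans (card_C s)
    exact_mod_cast this
  have hx : ∀ n : ℕ, IsUnit ((κ : ZMod (3 ^ s)) * ((u n : ZMod (3 ^ s)) + 1)) := by
    intro n
    rw [hu1]
    refine (hunit κ hκ3).mul ((hunit l hl3).mul (IsUnit.pow _ ?_))
    simpa using hunit 4 (by norm_num)
  choose y hy using fun n => (hx n).exists_left_inv
  set w : ℕ → ZMod (3 ^ s) := fun n => (((l * 4 ^ n - 1) / 3 ^ s : ℕ) : ZMod (3 ^ s)) with hw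
  -- decomposition
  have hdec : ((range (3 ^ t * 3 ^ i)).filter (fun n : ℕ => Q (l * 4 ^ n - 1))).card
      ≤ ∑ a ∈ T, ((range (3 ^ i)).filter (fun m : ℕ =>
        w a + ((κ : ZMod (3 ^ s)) * ((u a : ZMod (3 ^ s)) + 1)) * m ∈ V)).card := by
    rw [← card_sigma]
    apply card_le_card_of_injOn (fun n => ⟨n % 3 ^ t, n / 3 ^ t⟩)
    · intro n hn
      obtain ⟨hn1, hn2⟩ := mem_filter.1 (mem_coe.1 hn)
      have hn1' := mem_range.1 hn1
      obtain ⟨c, hc⟩ := one_add_pow (3 ^ s) κ (n / 3 ^ t)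
      set a := n % 3 ^ t with ha
      set m := n / 3 ^ t with hm
      have hn3 : l * 4 ^ n - 1 = (l * 4 ^ a - 1) + 3 ^ s * (l * 4 ^ a * (κ * m + 3 ^ s * c)) := by
        have e1 : n = a + 3 ^ t * m := by rw [ha, hm]; exact (Nat.mod_add_div _ _).symm
        have e2 : l * 4 ^ n = l * 4 ^ a + 3 ^ s * (l * 4 ^ a * (κ * m + 3 ^ s * c)) := by
          rw [e1, pow_add, pow_mul, hκ1, hc]
          ring
        have := hpos a
        omega
      simp only [coe_sigma, Set.mem_sigma_iff, mem_coe, mem_filter, mem_range, hT]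
      refine ⟨⟨Nat.mod_lt _ (by positivity), ?_⟩, ?_, ?_⟩
      · have e : u a = (l * 4 ^ n - 1) % 3 ^ s := by
          simp only [hu]
          rw [hn3, Nat.add_mul_mod_self_left]
        rw [e]
        exact mem_C.2 ⟨Nat.mod_lt _ (by positivity), Q_mod hn2 _⟩
      · rw [Nat.div_lt_iff_lt_mul (by positivity), mul_comm]
        exact hn1'
      · apply mem_image.2
        refine ⟨((l * 4 ^ n - 1) / 3 ^ s) % 3 ^ s,
          mem_C.2 ⟨Nat.mod_lt _ (by positivity), Q_mod (Q_div hn2 _) _⟩, ?_⟩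
        rw [ZMod.natCast_mod, hn3, Nat.add_mul_div_left _ _ (by positivity), hu1]
        simp only [hw]
        have h0 : ((3 ^ s : ℕ) : ZMod (3 ^ s)) = 0 := ZMod.natCast_self _
        rw [Nat.cast_add, Nat.cast_mul, Nat.cast_add, Nat.cast_mul (3 ^ s) c, h0]
        push_cast
        ring
    · intro n _ n' _ h
      simp only [Sigma.mk.injEq, heq_eq_eq] at h
      rw [← Nat.mod_add_div n (3 ^ t), ← Nat.mod_add_div n' (3 ^ t), h.1, h.2]
  have hAM : 9 * 3 ^ j * 3 ^ i ≤ 3 ^ s := by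
    rw [← hi]
    apply le_of_eq
    ring
  have hA : (0 : ℝ) < 3 ^ j := by positivity
  have hR : (0 : ℝ) < 2 ^ s / 3 ^ j := by positivity
  have hbil := bilinear T V y (3 ^ j) (2 ^ j) _ hR (fun b hb ξ =>
    mult s j κ (by omega) hκ3 T u (fun a ha => (mem_filter.1 ha).2) hinj y
      (fun a _ => hy a) b hb ξ)
  have hsum : (∑ a ∈ T, (((range (3 ^ i)).filter (fun m : ℕ =>
        w a + ((κ : ZMod (3 ^ s)) * ((u a : ZMod (3 ^ s)) + 1)) * m ∈ V)).card : ℝ))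
        * (((3 ^ j : ℕ) : ℝ) ^ 2 / 2) ≤ ∑ t ∈ T, ∑ a ∈ range (3 ^ j), ∑ b ∈ range (3 ^ j),
          ‖F V (((a : ZMod (3 ^ s)) - (b : ZMod (3 ^ s))) * y t)‖ := by
    rw [sum_mul]
    exact sum_le_sum fun a _ => ap_count V _ (y a) (w a) (hy a) (3 ^ j) (3 ^ i)
      (by positivity) hAM
  have hdec' : (((range (3 ^ t * 3 ^ i)).filter (fun n : ℕ => Q (l * 4 ^ n - 1))).card : ℝ)
      ≤ ∑ a ∈ T, (((range (3 ^ i)).filter (fun m : ℕ =>
        w a + ((κ : ZMod (3 ^ s)) * ((u a : ZMod (3 ^ s)) + 1)) * m ∈ V)).card : ℝ) := by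
    exact_mod_cast hdec
  refine hdec'.trans ?_
  set N := ∑ a ∈ T, (((range (3 ^ i)).filter (fun m : ℕ =>
        w a + ((κ : ZMod (3 ^ s)) * ((u a : ZMod (3 ^ s)) + 1)) * m ∈ V)).card : ℝ)
  replace hsum := hsum.trans hbil
  push_cast at hsum
  have hup : (T.card : ℝ) * 3 ^ j * V.card + (T.card * (3 ^ j) ^ 2 * (2 ^ s / 3 ^ j)
      + 3 ^ j * 2 ^ j * (3 ^ s * V.card) / (2 ^ s / 3 ^ j)) / 2
      ≤ (2 : ℝ) ^ s * 3 ^ j * 2 ^ s + (2 ^ s * (3 ^ j) ^ 2 * (2 ^ s / 3 ^ j)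
      + 3 ^ j * 2 ^ j * (3 ^ s * 2 ^ s) / (2 ^ s / 3 ^ j)) / 2 := by
    gcongr
  have hfin := hsum.trans hup
  have e4 : (4 : ℝ) ^ s = 2 ^ s * 2 ^ s := by rw [← mul_pow]; norm_num
  have e : (2 : ℝ) ^ s * 3 ^ j * 2 ^ s + (2 ^ s * (3 ^ j) ^ 2 * (2 ^ s / 3 ^ j)
      + 3 ^ j * 2 ^ j * (3 ^ s * 2 ^ s) / (2 ^ s / 3 ^ j)) / 2
      = (3 * 4 ^ s / 3 ^ j + 2 ^ j * 3 ^ s) * ((3 ^ j) ^ 2 / 2) := by
    rw [e4]
    field_simp
    ring
  rw [e] at hfin
  exact le_of_mul_le_mul_right hfin (by positivity)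

end Pool.Agent.Lib.MP_a95da8_nt
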