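import Mathlib

/-!
Counting integers without the ternary digit 2 in intervals, and separated real points.
-/

set_option autoImplicit false

namespace Pool.Agent.Lib.MP_a95da8_nt.RealOrb

open Finset
open scoped Classical

/-- No ternary digit of `t` is 2. -/
def K (t : ℕ) : Prop := 2 ∉ Nat.digits 3 t

theorem K_step {t : ℕ} (h : K t) : K (t / 3) ∧ t % 3 ≠ 2 := by
  rcases Nat.eq_zero_or_pos t with rfl | h0
  · exact ⟨h, by omega⟩
  · unfold K at h ⊢
    rw [Nat.digits_def' (by norm_num) h0, List.mem_cons, not_or] at h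
    exact ⟨h.2, fun e => h.1 e.symm⟩

theorem K_div {t : ℕ} (h : K t) (k : ℕ) : K (t / 3 ^ k) := by
  induction k with
  | zero => simpa using h
  | succ k ih =>
    rw [pow_succ, ← Nat.div_div_eq_div_mul]
    exact (K_step ih).1

theorem K_floor {x : ℝ} (h : K ⌊x⌋₊) (k : ℕ) : K ⌊x / 3 ^ k⌋₊ := by
  have e : ((3 ^ k : ℕ) : ℝ) = 3 ^ k := by push_cast; rfl
  rw [← e, Nat.floor_div_natCast]
  exact K_div h k

theorem card_K (j : ℕ) : ∀ a : ℕ, ((Icc a (a + 3 ^ j)).filter K).card ≤ 2 ^ (j + 1) := by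
  induction j with
  | zero =>
    intro a
    refine (card_filter_le _ _).trans ?_
    simp only [Nat.card_Icc, pow_zero, zero_add, pow_one]
    omega
  | succ j ih =>
    intro a
    have h := card_le_card_of_injOn (s := (Icc a (a + 3 ^ (j + 1))).filter K)
      (t := ((Icc (a / 3) (a / 3 + 3 ^ j)).filter K) ×ˢ range 2) (fun t => (t / 3, t % 3))
      (fun t ht => ?_) (fun t _ u _ e => ?_)
    · rw [card_product, card_range] at h
      have := ih (a / 3)
      rw [pow_succ 2 (j + 1)]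
      omega
    · simp only [coe_filter, mem_Icc, Set.mem_ofPred_eq] at ht
      obtain ⟨⟨h1, h2⟩, h3⟩ := ht
      obtain ⟨h4, h5⟩ := K_step h3
      rw [pow_succ] at h2
      simp only [coe_product, Set.mem_prod, coe_filter, mem_Icc, Set.mem_ofPred_eq, coe_range,
        Set.mem_Iio]
      exact ⟨⟨⟨by omega, by omega⟩, h4⟩, by omega⟩
    · simp only [Prod.mk.injEq] at e
      omega

/-- The exponent. -/
noncomputable def dd : ℝ := Real.logb 3 2

theorem three_rpow_dd : (3 : ℝ) ^ dd = 2 :=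
  Real.rpow_logb (by norm_num) (by norm_num) (by norm_num)

theorem dd_pos : 0 < dd := Real.logb_pos (by norm_num) (by norm_num)

theorem dd_le_one : dd ≤ 1 := by
  unfold dd
  rw [Real.logb_le_iff_le_rpow (by norm_num) (by norm_num)]
  norm_num

theorem two_rpow_dd : (7 / 5 : ℝ) ≤ 2 ^ dd := by
  have h1 : (3 : ℝ) ^ dd ≤ 4 ^ dd := Real.rpow_le_rpow (by norm_num) (by norm_num) dd_pos.le
  have h2 : (4 : ℝ) ^ dd = 2 ^ dd * 2 ^ dd := by
    rw [← Real.mul_rpow (by norm_num) (by norm_num)]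
    norm_num
  have h3 : (0 : ℝ) < 2 ^ dd := by positivity
  rw [three_rpow_dd, h2] at h1
  nlinarith

/-- Points at mutual distance at least one, in an interval of length `T`. -/
theorem card_sep {ι : Type} (S : Finset ι) (w : ι → ℝ) (A T : ℝ) (hT : 0 ≤ T)
    (h0 : ∀ i ∈ S, 0 ≤ w i) (hK : ∀ i ∈ S, K ⌊w i⌋₊) (hA : ∀ i ∈ S, A ≤ w i ∧ w i ≤ A + T)
    (hs : ∀ i ∈ S, ∀ i' ∈ S, i ≠ i' → 1 ≤ |w i - w i'|) :
    (S.card : ℝ) ≤ 4 * (T + 1) ^ dd := by
  obtain ⟨j, hj1, hj2⟩ := exists_nat_pow_near (x := T + 1) (y := (3 : ℝ)) (by linarith)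
    (by norm_num)
  have h := card_le_card_of_injOn (s := S)
    (t := (Icc ⌊A⌋₊ (⌊A⌋₊ + 3 ^ (j + 1))).filter K) (fun i => ⌊w i⌋₊)
    (fun i hi => ?_) (fun i hi i' hi' e => ?_)
  · have h1 : (S.card : ℝ) ≤ 2 ^ (j + 1 + 1) := by
      exact_mod_cast h.trans (card_K (j + 1) _)
    have h2 : (2 : ℝ) ^ j = ((3 : ℝ) ^ j) ^ dd := by
      rw [← three_rpow_dd, ← Real.rpow_natCast, ← Real.rpow_natCast,
        ← Real.rpow_mul (by norm_num), ← Real.rpow_mul (by norm_num), mul_comm]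
    have h3 : ((3 : ℝ) ^ j) ^ dd ≤ (T + 1) ^ dd :=
      Real.rpow_le_rpow (by positivity) hj1 dd_pos.le
    rw [pow_succ, pow_succ, h2] at h1
    linarith
  · have hi' : i ∈ S := hi
    simp only [coe_filter, mem_Icc, Set.mem_ofPred_eq]
    refine ⟨⟨Nat.floor_mono (hA i hi').1, Nat.floor_le_of_le ?_⟩, hK i hi'⟩
    have h1 := Nat.lt_floor_add_one A
    have h2 := (hA i hi').2
    push_cast
    linarith
  · by_contra hne
    have h1 := hs i hi i' hi' hne
    have a1 := Nat.floor_le (h0 i hi)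
    have a2 := Nat.floor_le (h0 i' hi')
    have a3 := Nat.lt_floor_add_one (w i)
    have a4 := Nat.lt_floor_add_one (w i')
    have e' : ⌊w i⌋₊ = ⌊w i'⌋₊ := e
    rw [e'] at a1 a3
    rw [le_abs] at h1
    rcases h1 with h1 | h1 <;> linarith

theorem one_le_log_three : 1 ≤ Real.log 3 := by
  rw [Real.le_log_iff_exp_le (by norm_num)]
  have := Real.exp_one_lt_d9
  linarith

theorem log_three_le : Real.log 3 ≤ 2 := by
  have := Real.log_le_sub_one_of_pos (show (0 : ℝ) < 3 by norm_num)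
  linarith

theorem rpow_sub_ge {u v : ℝ} (h : u ≤ v) : (3 : ℝ) ^ u * (v - u) ≤ 3 ^ v - 3 ^ u := by
  have h1 : (3 : ℝ) ^ v = 3 ^ u * 3 ^ (v - u) := by
    rw [← Real.rpow_add (by norm_num)]
    congr 1
    ring
  have h2 : v - u + 1 ≤ (3 : ℝ) ^ (v - u) := by
    rw [Real.rpow_def_of_pos (by norm_num)]
    have := Real.add_one_le_exp (Real.log 3 * (v - u))
    nlinarith [one_le_log_three]
  have h3 : (0 : ℝ) < 3 ^ u := by positivity
  rw [h1]
  nlinarith

theorem rpow_sub_le {u v : ℝ} (h : u ≤ v) : (3 : ℝ) ^ v - 3 ^ u ≤ 3 ^ v * (2 * (v - u)) := by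
  have h1 : (3 : ℝ) ^ u = 3 ^ v * 3 ^ (u - v) := by
    rw [← Real.rpow_add (by norm_num)]
    congr 1
    ring
  have h2 : 2 * (u - v) + 1 ≤ (3 : ℝ) ^ (u - v) := by
    rw [Real.rpow_def_of_pos (by norm_num)]
    have := Real.add_one_le_exp (Real.log 3 * (u - v))
    nlinarith [log_three_le]
  have h3 : (0 : ℝ) < 3 ^ v := by positivity
  rw [h1]
  nlinarith

theorem abs_rpow_ge {u v A : ℝ} (hu : A ≤ (3 : ℝ) ^ u) (hv : A ≤ (3 : ℝ) ^ v) :
    A * |u - v| ≤ |(3 : ℝ) ^ u - 3 ^ v| := by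
  rcases le_total u v with h | h
  · have h1 := rpow_sub_ge h
    rw [abs_sub_comm, abs_of_nonneg (by linarith), abs_sub_comm]
    exact le_trans (by nlinarith) (le_abs_self _)
  · have h1 := rpow_sub_ge h
    rw [abs_of_nonneg (by linarith)]
    exact le_trans (by nlinarith) (le_abs_self _)

theorem abs_rpow_le {u v B : ℝ} (hu : (3 : ℝ) ^ u ≤ B) (hv : (3 : ℝ) ^ v ≤ B) :
    |(3 : ℝ) ^ u - 3 ^ v| ≤ B * (2 * |u - v|) := by
  rcases le_total u v with h | h
  · have h1 := rpow_sub_le h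
    have h2 : (3 : ℝ) ^ u ≤ 3 ^ v := Real.rpow_le_rpow_of_exponent_le (by norm_num) h
    rw [abs_sub_comm, abs_of_nonneg (by linarith), abs_sub_comm, abs_of_nonneg (by linarith)]
    nlinarith
  · have h1 := rpow_sub_le h
    have h2 : (3 : ℝ) ^ v ≤ 3 ^ u := Real.rpow_le_rpow_of_exponent_le (by norm_num) h
    rw [abs_of_nonneg (by linarith), abs_of_nonneg (by linarith)]
    nlinarith

end Pool.Agent.Lib.MP_a95da8_nt.RealOrb
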