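import Pool.Agent.Lib.MP_a95da8_nt.RealA

/-!
The two scales: residue classes modulo a Dirichlet denominator, and one class.
-/

set_option autoImplicit false

namespace Pool.Agent.Lib.MP_a95da8_nt.RealOrb

open Finset
open scoped Classical

theorem two_pow_eq (n : ℕ) : (3 : ℝ) ^ ((n : ℝ) * dd) = 2 ^ n := by
  rw [mul_comm, Real.rpow_mul (by norm_num), three_rpow_dd, Real.rpow_natCast]

theorem rep {l : ℝ} (hl : 0 < l) (n k : ℕ) :
    l * 2 ^ n / 3 ^ k = (3 : ℝ) ^ (Real.logb 3 l + n * dd - k) := by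
  rw [Real.rpow_sub (by norm_num), Real.rpow_add (by norm_num), two_pow_eq,
    Real.rpow_logb (by norm_num) (by norm_num) hl, Real.rpow_natCast]

theorem scale {x A : ℝ} (hA : 0 < A) (h : A ≤ x) :
    ∃ k : ℕ, A ≤ x / 3 ^ k ∧ x / 3 ^ k ≤ 3 * A := by
  obtain ⟨k, h1, h2⟩ := exists_nat_pow_near (x := x / A) (y := (3 : ℝ))
    ((one_le_div hA).2 h) (by norm_num)
  have h3 : (0 : ℝ) < 3 ^ k := by positivity
  rw [le_div_iff₀ hA] at h1
  rw [div_lt_iff₀ hA, pow_succ] at h2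
  exact ⟨k, by rw [le_div_iff₀ h3]; linarith, by rw [div_le_iff₀ h3]; linarith⟩

theorem far {X q p : ℕ} (hc : Nat.Coprime q p) (he : |(q : ℝ) * dd - p| * (2 * X) ≤ 1)
    {h : ℤ} (hh : |h| ≤ X) (hd : ¬ (q : ℤ) ∣ h) (k : ℤ) : 1 ≤ 2 * q * |(h : ℝ) * dd - k| := by
  have h1 : (q : ℤ) * k - h * p ≠ 0 := fun e => hd <|
    (Nat.isCoprime_iff_coprime.2 hc).dvd_of_dvd_mul_right ⟨k, by linarith⟩
  have h2 : (1 : ℝ) ≤ |(q : ℝ) * k - h * p| := by exact_mod_cast Int.one_le_abs h1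
  have h3 : (q : ℝ) * k - h * p = h * (q * dd - p) - q * (h * dd - k) := by ring
  have h4 : |(h : ℝ)| ≤ X := by exact_mod_cast hh
  have h5 := abs_sub ((h : ℝ) * (q * dd - p)) (q * (h * dd - k))
  rw [abs_mul, abs_mul, Nat.abs_cast] at h5
  rw [h3] at h2
  have h6 := mul_le_mul_of_nonneg_right h4 (abs_nonneg ((q : ℝ) * dd - p))
  nlinarith

theorem level1 {l : ℝ} (hl : 54 ≤ l) {X q p : ℕ} (hq : 0 < q) (hq2 : q ≤ 2 * X)
    (hc : Nat.Coprime q p) (he : |(q : ℝ) * dd - p| * (2 * X) ≤ 1) (S : Finset ℕ)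
    (hS : ∀ n ∈ S, X ≤ n ∧ n < 2 * X ∧ K ⌊l * 2 ^ n⌋₊)
    (hinj : ∀ n ∈ S, ∀ n' ∈ S, n % q = n' % q → n = n') :
    (S.card : ℝ) ≤ 4 * (4 * q + 1) ^ dd := by
  have hq0 : (0 : ℝ) < q := by exact_mod_cast hq
  have ex : ∀ n : ℕ, ∃ k : ℕ, n ∈ S →
      2 * (q : ℝ) ≤ l * 2 ^ n / 3 ^ k ∧ l * 2 ^ n / 3 ^ k ≤ 3 * (2 * q) := fun n => by
    by_cases hn : n ∈ S
    · have h1 : q ≤ 2 * 2 ^ n := by
        have := (hS n hn).1
        have := Nat.lt_two_pow_self (n := n)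
        omega
      have h2 : (q : ℝ) ≤ 2 * 2 ^ n := by exact_mod_cast h1
      have h3 : (0 : ℝ) < 2 ^ n := by positivity
      obtain ⟨k, hk⟩ := scale (x := l * 2 ^ n) (A := 2 * q) (by linarith) (by nlinarith)
      exact ⟨k, fun _ => hk⟩
    · exact ⟨0, fun h => absurd h hn⟩
  choose k hk using ex
  refine card_sep S (fun n => l * 2 ^ n / 3 ^ k n) (2 * q) (4 * q) (by linarith)
    (fun n hn => by linarith [(hk n hn).1]) (fun n hn => K_floor (hS n hn).2.2 _)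
    (fun n hn => ⟨(hk n hn).1, by linarith [(hk n hn).2]⟩) fun n hn n' hn' hne => ?_
  have a1 := (hk n hn).1
  have a2 := (hk n' hn').1
  rw [rep (by linarith)] at a1 a2
  have a3 := abs_rpow_ge a1 a2
  have a4 := far hc he (h := (n : ℤ) - n') (by
      have := hS n hn
      have := hS n' hn'
      rw [abs_le]
      omega)
    (fun hd => hne (hinj n hn n' hn' ((Nat.modEq_iff_dvd.2 hd).symm))) ((k n : ℤ) - k n')
  have e : Real.logb 3 l + n * dd - k n - (Real.logb 3 l + n' * dd - k n') =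
      (((n : ℤ) - n' : ℤ) : ℝ) * dd - (((k n : ℤ) - k n' : ℤ) : ℝ) := by
    push_cast
    ring
  rw [e] at a3
  rw [rep (by linarith), rep (by linarith)]
  linarith

theorem delta_ge {q p : ℕ} (hq : 0 < q) (he : |(q : ℝ) * dd - p| ≤ 1) :
    1 ≤ 3 * 2 ^ q * (2 * |(q : ℝ) * dd - p|) := by
  have h1 : (2 : ℤ) ^ q - 3 ^ p ≠ 0 := fun e => by
    have a1 : Even ((2 : ℤ) ^ q) := (Int.even_pow.2 ⟨by norm_num, hq.ne'⟩)
    have a2 : Odd ((3 : ℤ) ^ p) := Odd.pow (by decide)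
    rw [sub_eq_zero.1 e] at a1
    exact Int.not_even_iff_odd.2 a2 a1
  have h2 : (1 : ℝ) ≤ |(2 : ℝ) ^ q - 3 ^ p| := by exact_mod_cast Int.one_le_abs h1
  have h3 : (0 : ℝ) < 2 ^ q := by positivity
  have h4 : (3 : ℝ) ^ (p : ℝ) ≤ 3 ^ ((q : ℝ) * dd + 1) :=
    Real.rpow_le_rpow_of_exponent_le (by norm_num) (by linarith [(abs_le.1 he).1])
  rw [Real.rpow_add (by norm_num), two_pow_eq, Real.rpow_one] at h4
  have h5 := abs_rpow_le (u := (q : ℝ) * dd) (v := p) (B := 3 * 2 ^ q)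
    (by rw [two_pow_eq]; linarith) (by linarith)
  rw [two_pow_eq, Real.rpow_natCast] at h5
  linarith

theorem level2 {l : ℝ} (hl : 54 ≤ l) {X q p : ℕ} (hq : 0 < q)
    (he : |(q : ℝ) * dd - p| * (2 * X) ≤ 1) (S : Finset ℕ)
    (hS : ∀ n ∈ S, X ≤ n ∧ n < 2 * X ∧ K ⌊l * 2 ^ n⌋₊)
    (hmod : ∀ n ∈ S, ∀ n' ∈ S, n % q = n' % q) :
    (S.card : ℝ) ≤ 4 * (108 * (X / q) + 1) ^ dd := by
  have hq0 : (0 : ℝ) < q := by exact_mod_cast hq
  have hT : (0 : ℝ) ≤ 108 * (X / q) := by positivity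
  have h1 : (1 : ℝ) ≤ (108 * (X / q) + 1) ^ dd := Real.one_le_rpow (by linarith) dd_pos.le
  rcases S.eq_empty_or_nonempty with rfl | hne
  · simp only [card_empty, Nat.cast_zero]
    linarith
  obtain ⟨n0, h0, hmin⟩ := S.exists_min_image id hne
  have ex : ∀ n : ℕ, ∃ m : ℕ, n ∈ S → n = n0 + q * m ∧ q * m < X := fun n => by
    by_cases hn : n ∈ S
    · have a1 : n0 ≤ n := hmin n hn
      obtain ⟨m, hm⟩ := (Nat.modEq_iff_dvd' a1).1 (hmod n0 h0 n hn)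
      have := hS n hn
      have := hS n0 h0
      exact ⟨m, fun _ => by omega⟩
    · exact ⟨0, fun h => absurd h hn⟩
  choose m hm using ex
  by_cases hqn : n0 < q
  · have : S.card ≤ 1 := card_le_one.2 fun a ha b hb => by
      have a1 := hm a ha
      have a2 := hm b hb
      have a3 := (hS n0 h0).1
      have a4 : m a = 0 := by
        by_contra h
        have := Nat.le_mul_of_pos_right q (Nat.pos_of_ne_zero h)
        omega
      have a5 : m b = 0 := by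
        by_contra h
        have := Nat.le_mul_of_pos_right q (Nat.pos_of_ne_zero h)
        omega
      rw [a1.1, a2.1, a4, a5]
    have : (S.card : ℝ) ≤ 1 := by exact_mod_cast this
    linarith
  have hX : (1 : ℝ) ≤ X := by
    have := hS n0 h0
    exact_mod_cast (by omega : 1 ≤ X)
  obtain ⟨ε, hε⟩ : ∃ ε : ℝ, ε = q * dd - p := ⟨_, rfl⟩
  rw [← hε] at he
  have b0 := abs_nonneg ε
  have b1 := delta_ge (p := p) hq (by rw [← hε]; nlinarith)
  rw [← hε] at b1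
  have b2 : 0 < |ε| := by
    rcases b0.eq_or_lt with h | h
    · rw [← h] at b1
      norm_num at b1
    · exact h
  have b3 : (2 : ℝ) ^ q ≤ 2 ^ n0 := pow_le_pow_right₀ (by norm_num) (by omega)
  have b4 : (0 : ℝ) < 2 ^ q := by positivity
  obtain ⟨k0, c1, c2⟩ := scale (x := l * 2 ^ n0) (A := 3 / |ε|) (by positivity) (by
    rw [div_le_iff₀ b2]
    have : 54 * 2 ^ q ≤ l * 2 ^ n0 := by nlinarith
    nlinarith)
  rw [rep (by linarith)] at c1 c2
  obtain ⟨s, hs⟩ : ∃ s : ℝ, s = Real.logb 3 l + n0 * dd - k0 := ⟨_, rfl⟩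
  rw [← hs] at c1 c2
  have w : ∀ n ∈ S, l * 2 ^ n / 3 ^ (k0 + m n * p) = (3 : ℝ) ^ (s + m n * ε) := fun n hn => by
    rw [rep (by linarith)]
    congr 1
    have : (n : ℝ) = n0 + q * m n := by exact_mod_cast (hm n hn).1
    rw [hs, hε, this]
    push_cast
    ring
  have mb : ∀ n ∈ S, (m n : ℝ) ≤ X / q := fun n hn => by
    rw [le_div_iff₀ hq0, mul_comm]
    exact_mod_cast (hm n hn).2.le
  have me : ∀ n ∈ S, |(m n : ℝ) * ε| ≤ 1 := fun n hn => by
    have a1 : m n ≤ X := (Nat.le_mul_of_pos_left _ hq).trans (hm n hn).2.le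
    have a2 : (m n : ℝ) ≤ X := by exact_mod_cast a1
    rw [abs_mul, Nat.abs_cast]
    nlinarith
  have e3 : 3 / |ε| = 3 * |ε|⁻¹ := div_eq_mul_inv _ _
  have e4 : |ε|⁻¹ * |ε| = 1 := inv_mul_cancel₀ b2.ne'
  have e5 : 0 < |ε|⁻¹ := inv_pos.2 b2
  have lo : ∀ n ∈ S, |ε|⁻¹ ≤ (3 : ℝ) ^ (s + m n * ε) := fun n hn => by
    have a1 : (3 : ℝ) ^ (s - 1) ≤ 3 ^ (s + m n * ε) :=
      Real.rpow_le_rpow_of_exponent_le (by norm_num) (by linarith [(abs_le.1 (me n hn)).1])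
    rw [Real.rpow_sub (by norm_num), Real.rpow_one] at a1
    linarith
  have hi : ∀ n ∈ S, (3 : ℝ) ^ (s + m n * ε) ≤ 27 * |ε|⁻¹ := fun n hn => by
    have a1 : (3 : ℝ) ^ (s + m n * ε) ≤ 3 ^ (s + 1) :=
      Real.rpow_le_rpow_of_exponent_le (by norm_num) (by linarith [(abs_le.1 (me n hn)).2])
    rw [Real.rpow_add (by norm_num) s 1, Real.rpow_one] at a1
    linarith
  refine card_sep S (fun n => (3 : ℝ) ^ (s + m n * ε)) (3 ^ s - 54 * (X / q)) _ hT
    (fun n _ => by positivity) (fun n hn => by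
      rw [← w n hn]
      exact K_floor (hS n hn).2.2 _) (fun n hn => ?_) fun n hn n' hn' hne => ?_
  · have a1 := abs_rpow_le (u := s + m n * ε) (v := s) (hi n hn) (by linarith)
    rw [add_sub_cancel_left, abs_mul, Nat.abs_cast] at a1
    have a2 : 27 * |ε|⁻¹ * (2 * (m n * |ε|)) = 54 * m n * (|ε|⁻¹ * |ε|) := by ring
    rw [a2, e4, abs_le] at a1
    have a3 := mb n hn
    constructor <;> linarith [a1.1, a1.2]
  · have a1 := abs_rpow_ge (lo n hn) (lo n' hn')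
    have a2 : s + m n * ε - (s + m n' * ε) = ((m n : ℝ) - m n') * ε := by ring
    have a3 : (m n : ℤ) - m n' ≠ 0 := fun e => hne (by
      have : m n = m n' := by omega
      rw [(hm n hn).1, (hm n' hn').1, this])
    have a4 : (1 : ℝ) ≤ |(m n : ℝ) - m n'| := by exact_mod_cast Int.one_le_abs a3
    rw [a2, abs_mul, mul_left_comm, e4, mul_one] at a1
    exact a4.trans a1

end Pool.Agent.Lib.MP_a95da8_nt.RealOrb
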