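import Pool.Agent.Lib.MP_a95da8_nt.RealB

/-!
One dyadic window, then all indices.
-/

set_option autoImplicit false

namespace Pool.Agent.Lib.MP_a95da8_nt.RealOrb

open Finset
open scoped Classical

theorem dirichlet {X : ℕ} (hX : 0 < X) : ∃ q p : ℕ, 0 < q ∧ q ≤ 2 * X ∧ Nat.Coprime q p ∧
    |(q : ℝ) * dd - p| * (2 * X) ≤ 1 := by
  obtain ⟨r, h1, h2⟩ := Real.exists_rat_abs_sub_le_and_den_le dd (n := 2 * X) (by omega)
  have hd : (0 : ℝ) < r.den := by exact_mod_cast r.den_pos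
  have hX' : (1 : ℝ) ≤ X := by exact_mod_cast hX
  have h3 : (r.den : ℝ) * dd - r.num = r.den * (dd - r) := by
    rw [Rat.cast_def r]
    field_simp
  have h4 : |(r.den : ℝ) * dd - r.num| * (2 * X + 1) ≤ 1 := by
    rw [h3, abs_mul, Nat.abs_cast]
    rw [le_div_iff₀ (by positivity)] at h1
    push_cast at h1
    linarith
  have h5 := abs_nonneg ((r.den : ℝ) * dd - r.num)
  have h6 : 0 ≤ r.num := by
    by_contra h
    have a1 : (r.num : ℝ) ≤ -1 := by exact_mod_cast (by omega : r.num ≤ -1)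
    have a2 := le_abs_self ((r.den : ℝ) * dd - r.num)
    have a3 := mul_pos hd dd_pos
    nlinarith
  have h7 : ((r.num.natAbs : ℕ) : ℝ) = r.num := by
    rw [Nat.cast_natAbs, Int.cast_abs, abs_of_nonneg (by exact_mod_cast h6)]
  refine ⟨r.den, r.num.natAbs, r.den_pos, h2, r.reduced.symm, ?_⟩
  rw [h7]
  nlinarith

theorem window {l : ℝ} (hl : 54 ≤ l) {X : ℕ} (hX : 0 < X) :
    (((Ico X (2 * X)).filter fun n => K ⌊l * 2 ^ n⌋₊).card : ℝ) ≤ 8784 * (X : ℝ) ^ dd := by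
  obtain ⟨q, p, hq, hq2, hc, he⟩ := dirichlet hX
  obtain ⟨S, hS⟩ : ∃ S, S = (Ico X (2 * X)).filter fun n => K ⌊l * 2 ^ n⌋₊ := ⟨_, rfl⟩
  rw [← hS]
  have hS' : ∀ n ∈ S, X ≤ n ∧ n < 2 * X ∧ K ⌊l * 2 ^ n⌋₊ := fun n hn => by
    rw [hS, mem_filter, mem_Ico] at hn
    exact ⟨hn.1.1, hn.1.2, hn.2⟩
  obtain ⟨U, u1, u2, u3⟩ := exists_subset_injOn_image_eq_of_surjOn (f := fun n => n % q)
    (S : Set ℕ) (S.image fun n => n % q) (by
      rw [coe_image]
      exact Set.surjOn_image _ _)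
  have a1 := level1 hl hq hq2 hc he U (fun n hn => hS' n (u1 hn)) fun n hn n' hn' e => u2 hn hn' e
  have a2 : (S.image fun n => n % q).card = U.card := by rw [← u3, card_image_of_injOn u2]
  have a3 : (S.card : ℝ) ≤ U.card * (4 * (108 * (X / q) + 1) ^ dd) := by
    rw [card_eq_sum_card_image (fun n => n % q) S, ← a2, ← nsmul_eq_mul, Nat.cast_sum]
    refine sum_le_card_nsmul _ _ _ fun r _ => ?_
    refine level2 hl hq he _ (fun n hn => hS' n (mem_filter.1 hn).1) fun n hn n' hn' => ?_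
    rw [(mem_filter.1 hn).2, (mem_filter.1 hn').2]
  have hq0 : (1 : ℝ) ≤ q := by exact_mod_cast hq
  have hX0 : (1 : ℝ) ≤ X := by exact_mod_cast hX
  have hq3 : (q : ℝ) ≤ 2 * X := by exact_mod_cast hq2
  have b0 : (0 : ℝ) ≤ X / q := by positivity
  have b1 : (X : ℝ) / q ≤ X := div_le_self (by linarith) hq0
  have b2 : (q : ℝ) * (X / q) = X := by field_simp
  have b3 : ((4 : ℝ) * q + 1) * (108 * (X / q) + 1) ≤ 549 * X := by nlinarith
  have b4 : ((4 : ℝ) * q + 1) ^ dd * (108 * (X / q) + 1) ^ dd ≤ 549 * (X : ℝ) ^ dd := by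
    rw [← Real.mul_rpow (by positivity) (by positivity)]
    refine (Real.rpow_le_rpow (by positivity) b3 dd_pos.le).trans ?_
    rw [Real.mul_rpow (by norm_num) (by positivity)]
    refine mul_le_mul_of_nonneg_right ?_ (by positivity)
    simpa using Real.rpow_le_rpow_of_exponent_le (show (1 : ℝ) ≤ 549 by norm_num) dd_le_one
  have b5 : (0 : ℝ) ≤ 4 * (108 * (X / q) + 1) ^ dd := by positivity
  have b6 := mul_le_mul_of_nonneg_right a1 b5
  nlinarith

theorem count_big {l : ℝ} (hl : 54 ≤ l) (Y : ℕ) :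
    (((range Y).filter fun n => K ⌊l * 2 ^ n⌋₊).card : ℝ) ≤ 22000 * (Y : ℝ) ^ dd := by
  induction Y using Nat.strong_induction_on with
  | _ Y ih =>
    rcases Nat.lt_or_ge Y 2 with h | h
    · have a1 : ((range Y).filter fun n => K ⌊l * 2 ^ n⌋₊).card ≤ Y :=
        (card_filter_le _ _).trans (card_range Y).le
      have a2 : (((range Y).filter fun n => K ⌊l * 2 ^ n⌋₊).card : ℝ) ≤ Y := by exact_mod_cast a1
      interval_cases Y
      · simp [Real.zero_rpow dd_pos.ne']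
      · simp only [Nat.cast_one, Real.one_rpow] at a2 ⊢
        linarith
    · obtain ⟨X, hX⟩ : ∃ X, X = Y / 2 := ⟨_, rfl⟩
      have a1 := ih X (by omega)
      have a2 := window hl (X := X) (by omega)
      have a3 : ((range Y).filter fun n => K ⌊l * 2 ^ n⌋₊).card ≤
          ((range X).filter fun n => K ⌊l * 2 ^ n⌋₊).card +
            ((Ico X (2 * X)).filter fun n => K ⌊l * 2 ^ n⌋₊).card + 1 := by
        refine le_trans (card_le_card (t := insert (2 * X)
          (((range X).filter fun n => K ⌊l * 2 ^ n⌋₊) ∪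
            (Ico X (2 * X)).filter fun n => K ⌊l * 2 ^ n⌋₊)) fun n hn => ?_)
          ((card_insert_le _ _).trans (Nat.add_le_add_right (card_union_le _ _) 1))
        simp only [mem_filter, mem_range, mem_insert, mem_union, mem_Ico] at hn ⊢
        by_cases b1 : n < X
        · exact Or.inr (Or.inl ⟨b1, hn.2⟩)
        · by_cases b2 : n < 2 * X
          · exact Or.inr (Or.inr ⟨⟨by omega, b2⟩, hn.2⟩)
          · exact Or.inl (by omega)
      have a4 : (((range Y).filter fun n => K ⌊l * 2 ^ n⌋₊).card : ℝ) ≤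
          ((range X).filter fun n => K ⌊l * 2 ^ n⌋₊).card +
            ((Ico X (2 * X)).filter fun n => K ⌊l * 2 ^ n⌋₊).card + 1 := by exact_mod_cast a3
      have hX1 : (1 : ℝ) ≤ X := by exact_mod_cast (by omega : 1 ≤ X)
      have hXY : (2 : ℝ) * X ≤ Y := by exact_mod_cast (by omega : 2 * X ≤ Y)
      have b1 : (1 : ℝ) ≤ (X : ℝ) ^ dd := Real.one_le_rpow hX1 dd_pos.le
      have b2 : ((2 : ℝ) * X) ^ dd ≤ (Y : ℝ) ^ dd :=
        Real.rpow_le_rpow (by positivity) hXY dd_pos.le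
      rw [Real.mul_rpow (by norm_num) (by positivity)] at b2
      have b3 := mul_le_mul_of_nonneg_right two_rpow_dd (by linarith : (0 : ℝ) ≤ (X : ℝ) ^ dd)
      linarith

theorem count_all {l : ℝ} (X : ℕ) :
    (((range X).filter fun n => 1 ≤ l * 2 ^ n ∧ K ⌊l * 2 ^ n⌋₊).card : ℝ) ≤
      22006 * (X : ℝ) ^ dd := by
  rcases ((range X).filter fun n => 1 ≤ l * 2 ^ n ∧ K ⌊l * 2 ^ n⌋₊).eq_empty_or_nonempty with
    h | h
  · rw [h, card_empty, Nat.cast_zero]
    positivity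
  obtain ⟨c, hc, hmin⟩ := exists_min_image _ id h
  simp only [mem_filter, mem_range, id] at hc hmin
  have a0 : 54 ≤ l * 2 ^ (c + 6) := by
    rw [pow_add, ← mul_assoc]
    nlinarith [hc.2.1]
  have a1 := count_big a0 X
  have a2 : ((range X).filter fun n => 1 ≤ l * 2 ^ n ∧ K ⌊l * 2 ^ n⌋₊).card ≤
      6 + ((range X).filter fun n => K ⌊l * 2 ^ (c + 6) * 2 ^ n⌋₊).card := by
    refine le_trans (card_le_card (t := Ico c (c + 6) ∪
      ((range X).filter fun n => K ⌊l * 2 ^ (c + 6) * 2 ^ n⌋₊).image (fun n => c + 6 + n))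
      fun n hn => ?_) ((card_union_le _ _).trans (Nat.add_le_add (by simp) card_image_le))
    simp only [mem_filter, mem_range, mem_union, mem_Ico, mem_image] at hn ⊢
    have b1 := hmin n hn
    by_cases b2 : n < c + 6
    · exact Or.inl ⟨b1, b2⟩
    · refine Or.inr ⟨n - (c + 6), ⟨by omega, ?_⟩, by omega⟩
      rw [mul_assoc, ← pow_add, show c + 6 + (n - (c + 6)) = n by omega]
      exact hn.2.2
  have a3 : (((range X).filter fun n => 1 ≤ l * 2 ^ n ∧ K ⌊l * 2 ^ n⌋₊).card : ℝ) ≤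
      6 + ((range X).filter fun n => K ⌊l * 2 ^ (c + 6) * 2 ^ n⌋₊).card := by exact_mod_cast a2
  have hX1 : (1 : ℝ) ≤ X := by exact_mod_cast (by omega : 1 ≤ X)
  have b1 : (1 : ℝ) ≤ (X : ℝ) ^ dd := Real.one_le_rpow hX1 dd_pos.le
  linarith

end Pool.Agent.Lib.MP_a95da8_nt.RealOrb
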